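import Pool.Agent.Run7.h381.WU.Stm

/-!
Stochastic domination under the deletion of edges.
-/

set_option autoImplicit false

namespace Run7.h304.WU

open Finset
open Pool.Agent.TH968.UST (Conn IsSpan trees)
open Run7.h381.WU

theorem mem_trees {V : Type} {r : Setoid V} {E T : Finset (Sym2 V)} (h : T ∈ trees r E) :
    T ⊆ E := by
  classical
  unfold trees at h
  exact mem_powerset.1 (mem_filter.1 h).1

theorem del_one (h3 : S_T3) (h3' : S_T3') (h5 : S_T5) (hfm : S_FM) (hhnc : S_HNC)
    {V : Type} [DecidableEq (Sym2 V)] (r : Setoid V) (E E' : Finset (Sym2 V)) (e : Sym2 V)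
    (heE : e ∈ E) (heE' : e ∉ E') (g : Finset (Sym2 V) → ℝ) (hg : Monotone g) :
    Av r E (fun T => g (T ∩ E')) ≤ Av r (E.erase e) (fun T => g (T ∩ E')) := by
  have herase : ∀ T : Finset (Sym2 V), (T.erase e) ∩ E' = T ∩ E' := by
    intro T
    ext x
    simp only [mem_inter, mem_erase]
    constructor
    · rintro ⟨⟨-, h⟩, h'⟩
      exact ⟨h, h'⟩
    · rintro ⟨h, h'⟩
      exact ⟨⟨fun hx => heE' (hx ▸ h'), h⟩, h'⟩
  by_cases hall : ∀ T ∈ trees r E, e ∈ T
  · have hmem := h3' V r E e heE hall
    have himg : trees r (E.erase e) = (trees r E).image (fun T => T.erase e) := by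
      ext T
      rw [hmem, mem_image]
      constructor
      · rintro ⟨he, hT⟩
        exact ⟨_, hT, erase_insert he⟩
      · rintro ⟨T', hT', rfl⟩
        exact ⟨notMem_erase _ _, by rw [insert_erase (hall T' hT')]; exact hT'⟩
    have hinj : Set.InjOn (fun T : Finset (Sym2 V) => T.erase e) (trees r E : Set (Finset (Sym2 V))) := by
      intro T hT T' hT' h
      have h2 : insert e (T.erase e) = insert e (T'.erase e) := by
        have h4 : T.erase e = T'.erase e := h
        rw [h4]
      rwa [insert_erase (hall T hT), insert_erase (hall T' hT')] at h2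
    unfold Av
    rw [himg, sum_image hinj, card_image_of_injOn hinj]
    simp only [herase]
    exact le_refl _
  · push Not at hall
    obtain ⟨T0, hT0, heT0⟩ := hall
    have hmem := h3 V r E e T0 hT0 heT0
    have hfil : trees r (E.erase e) = (trees r E).filter (e ∉ ·) := by
      ext T
      rw [hmem, mem_filter]
    have hg' : Monotone (fun T : Finset (Sym2 V) => g (T ∩ E')) := fun A B hAB =>
      hg (inter_subset_inter_right hAB)
    have hF := hfm (Sym2 V) (trees r E) T0.card (fun T hT => h5 V r E T hT T0 hT0) (hhnc V r E) e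
      (fun T => g (T ∩ E')) hg'
    simp only [herase] at hF
    have hN : 0 < ((trees r E).card : ℝ) := by exact_mod_cast card_pos.2 ⟨T0, hT0⟩
    have hN' : 0 < (((trees r E).filter (e ∉ ·)).card : ℝ) := by
      have : T0 ∈ (trees r E).filter (e ∉ ·) := mem_filter.2 ⟨hT0, heT0⟩
      exact_mod_cast card_pos.2 ⟨_, this⟩
    have hs := sum_filter_add_sum_filter_not (trees r E) (e ∈ ·) (fun T => g (T ∩ E'))
    have hc : (((trees r E).filter (e ∈ ·)).card : ℝ) + ((trees r E).filter (e ∉ ·)).card =
        (trees r E).card := by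
      have := card_filter_add_card_filter_not (s := trees r E) (e ∈ ·)
      exact_mod_cast this
    unfold Av
    rw [hfil, div_le_div_iff₀ hN hN']
    rw [← hs] at hF ⊢
    rw [← hc] at hF ⊢
    linarith

theorem DEL (h3 : S_T3) (h3' : S_T3') (h5 : S_T5) (hfm : S_FM) (hhnc : S_HNC) :
    S_DEL := by
  intro V _ r E E' hE g hg
  induction hk : (E \ E').card generalizing E with
  | zero =>
    have h2 : E = E' := Subset.antisymm (sdiff_eq_empty_iff_subset.1 (card_eq_zero.1 hk)) hE
    subst h2
    unfold Av
    apply le_of_eq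
    congr 1
    refine sum_congr rfl fun T hT => ?_
    show g (T ∩ E) = g T
    rw [inter_eq_left.2 (mem_trees hT)]
  | succ k ih =>
    obtain ⟨e, he⟩ : (E \ E').Nonempty := card_pos.1 (by omega)
    rw [mem_sdiff] at he
    have hE1 : E' ⊆ E.erase e := fun x hx =>
      mem_erase.2 ⟨fun hxe => he.2 (hxe ▸ hx), hE hx⟩
    refine (del_one h3 h3' h5 hfm hhnc r E E' e he.1 he.2 g hg).trans (ih _ hE1 ?_)
    rw [erase_sdiff_comm, card_erase_of_mem (mem_sdiff.2 he), hk]
    rfl

end Run7.h304.WU
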