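import Pool.Agent.Run7.h381.WU.Stm

/-!
Recurrence: the free and the wired uniform spanning tree contain an edge with about the same
probability.
-/

set_option autoImplicit false

namespace Run7.h304.WU

open Finset Filter Topology
open Pool.Agent.TH968.UST (Conn IsSpan trees wired touch)
open Pool.Agent.H424R3.Pow (hitWithin returnWithin nbrAvg Recurrent)
open Run7.h381.WU

variable {V : Type}

/-! ### averages over the neighbours -/

theorem nbrAvg_eq (G : SimpleGraph V) {x : V} (hx : (G.neighborSet x).Finite) (f : V → ℝ) :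
    nbrAvg G f x = (∑ y ∈ hx.toFinset, f y) / hx.toFinset.card := by
  unfold nbrAvg
  rw [finsum_mem_eq_finite_toFinset_sum _ hx, Set.ncard_eq_toFinset_card _ hx]

theorem nbrAvg_mono (G : SimpleGraph V) {x : V} (hx : (G.neighborSet x).Finite) {f g : V → ℝ}
    (h : ∀ y ∈ G.neighborSet x, f y ≤ g y) : nbrAvg G f x ≤ nbrAvg G g x := by
  rw [nbrAvg_eq G hx, nbrAvg_eq G hx]
  apply div_le_div_of_nonneg_right _ (Nat.cast_nonneg _)
  exact sum_le_sum fun y hy => h y (hx.mem_toFinset.1 hy)

theorem nbrAvg_const (G : SimpleGraph V) {x : V} (hx : (G.neighborSet x).Finite)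
    (hne : (G.neighborSet x).Nonempty) (c : ℝ) : nbrAvg G (fun _ => c) x = c := by
  rw [nbrAvg_eq G hx, sum_const, nsmul_eq_mul]
  have : (hx.toFinset.card : ℝ) ≠ 0 := by
    rw [Nat.cast_ne_zero, card_ne_zero]
    exact (Set.Finite.toFinset_nonempty hx).2 hne
  field_simp

theorem nbrAvg_sub (G : SimpleGraph V) {x : V} (hx : (G.neighborSet x).Finite) (f g : V → ℝ) :
    nbrAvg G (fun y => f y - g y) x = nbrAvg G f x - nbrAvg G g x := by
  rw [nbrAvg_eq G hx, nbrAvg_eq G hx, nbrAvg_eq G hx, sum_sub_distrib, sub_div]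

theorem nbrAvg_abs (G : SimpleGraph V) {x : V} (hx : (G.neighborSet x).Finite) (f : V → ℝ) :
    |nbrAvg G f x| ≤ nbrAvg G (fun y => |f y|) x := by
  rw [nbrAvg_eq G hx, nbrAvg_eq G hx, abs_div, Nat.abs_cast]
  exact div_le_div_of_nonneg_right (abs_sum_le_sum_abs _ _) (Nat.cast_nonneg _)

theorem nbrAvg_empty (G : SimpleGraph V) {x : V} (h : ¬ (G.neighborSet x).Nonempty) (f : V → ℝ) :
    nbrAvg G f x = 0 := by
  rw [Set.not_nonempty_iff_eq_empty] at h
  unfold nbrAvg
  rw [h]
  simp

theorem hit_mem (G : SimpleGraph V) (hf : ∀ x, (G.neighborSet x).Finite) (o : V) (n : ℕ) :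
    ∀ x, 0 ≤ hitWithin G o n x ∧ hitWithin G o n x ≤ 1 := by
  induction n with
  | zero =>
    intro x
    unfold hitWithin
    split_ifs <;> norm_num
  | succ n ih =>
    intro x
    unfold hitWithin
    split_ifs with h
    · norm_num
    · by_cases hne : (G.neighborSet x).Nonempty
      · have h0 := nbrAvg_mono G (hf x) (f := fun _ => 0) (g := hitWithin G o n)
          fun y _ => (ih y).1
        have h1 := nbrAvg_mono G (hf x) (g := fun _ => 1) (f := hitWithin G o n)
          fun y _ => (ih y).2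
        rw [nbrAvg_const G (hf x) hne] at h0 h1
        exact ⟨h0, h1⟩
      · rw [nbrAvg_empty G hne]
        norm_num

/-- the probability to hit `y` from a neighbour `x` tends to one -/
theorem hit_lim (G : SimpleGraph V) (hf : ∀ x, (G.neighborSet x).Finite) {x y : V}
    (hxy : G.Adj y x) (hy : Recurrent G y) :
    Tendsto (fun n => 1 - hitWithin G y n x) atTop (𝓝 0) := by
  have hx : x ∈ G.neighborSet y := hxy
  have hne : (G.neighborSet y).Nonempty := ⟨x, hx⟩
  set d : ℝ := ((hf y).toFinset.card : ℝ) with hd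
  have hd0 : 0 < d := by
    have : 0 < (hf y).toFinset.card := card_pos.2 ((Set.Finite.toFinset_nonempty (hf y)).2 hne)
    rw [hd]
    exact_mod_cast this
  have h1 : Tendsto (fun n => d * (1 - returnWithin G y n)) atTop (𝓝 0) := by
    have h2 : Tendsto (fun n => returnWithin G y n) atTop (𝓝 1) := hy
    have := (h2.const_sub 1).const_mul d
    simpa using this
  refine squeeze_zero (fun n => sub_nonneg.2 (hit_mem G hf y n x).2) (fun n => ?_) h1
  have h3 : 1 - returnWithin G y n = nbrAvg G (fun z => 1 - hitWithin G y n z) y := by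
    rw [nbrAvg_sub G (hf y), nbrAvg_const G (hf y) hne]
    rfl
  rw [h3, nbrAvg_eq G (hf y), ← hd, mul_div_cancel₀ _ hd0.ne']
  exact single_le_sum (f := fun z => 1 - hitWithin G y n z)
    (fun z _ => sub_nonneg.2 (hit_mem G hf y n z).2) ((hf y).mem_toFinset.2 hx)

/-! ### balls -/

/-- the ball of radius `k` around `x` -/
def bal (G : SimpleGraph V) (x : V) : ℕ → Set V
  | 0 => {x}
  | k + 1 => bal G x k ∪ ⋃ z ∈ bal G x k, G.neighborSet z

theorem bal_finite (G : SimpleGraph V) (hf : ∀ x, (G.neighborSet x).Finite) (x : V) (k : ℕ) :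
    (bal G x k).Finite := by
  induction k with
  | zero => exact Set.finite_singleton x
  | succ k ih => exact ih.union (ih.biUnion fun z _ => hf z)

theorem bal_mono (G : SimpleGraph V) (x : V) {j k : ℕ} (h : j ≤ k) : bal G x j ⊆ bal G x k := by
  induction h with
  | refl => exact Set.Subset.refl _
  | step _ ih => exact ih.trans Set.subset_union_left

theorem bal_step (G : SimpleGraph V) (x : V) (k : ℕ) {z w : V} (hz : z ∈ bal G x k)
    (hw : w ∈ G.neighborSet z) : w ∈ bal G x (k + 1) :=
  Or.inr (Set.mem_biUnion hz hw)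

/-- a bounded function which is harmonic on the ball of radius `M` around `x` and vanishes at `y` -/
theorem harm_bound (G : SimpleGraph V) (hf : ∀ x, (G.neighborSet x).Finite) (x y : V) (M : ℕ)
    (θ : V → ℝ) (hθ : ∀ z, |θ z| ≤ 1) (hy : θ y = 0)
    (hh : ∀ z ∈ bal G x M, (G.neighborSet z).Nonempty → nbrAvg G θ z = θ z) :
    |θ x| ≤ 1 - hitWithin G y M x := by
  have key : ∀ j, j ≤ M → ∀ z ∈ bal G x (M - j), |θ z| ≤ 1 - hitWithin G y j z := by
    intro j
    induction j with
    | zero =>
      intro _ z _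
      unfold hitWithin
      split_ifs with h
      · rw [h, hy]; simp
      · simpa using hθ z
    | succ j ih =>
      intro hj z hz
      unfold hitWithin
      split_ifs with h
      · rw [h, hy]; simp
      · by_cases hne : (G.neighborSet z).Nonempty
        · have hz' : z ∈ bal G x M := bal_mono G x (Nat.sub_le _ _) hz
          have hstep : ∀ w ∈ G.neighborSet z, |θ w| ≤ 1 - hitWithin G y j w := by
            intro w hw
            apply ih (by omega)
            have h2 := bal_step G x _ hz hw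
            have e : M - (j + 1) + 1 = M - j := by omega
            rwa [e] at h2
          rw [← hh z hz' hne]
          refine (nbrAvg_abs G (hf z) θ).trans ?_
          refine (nbrAvg_mono G (hf z) hstep).trans ?_
          rw [nbrAvg_sub G (hf z), nbrAvg_const G (hf z) hne]
        · rw [nbrAvg_empty G hne]
          simpa using hθ z
  have h := key M le_rfl x (by rw [Nat.sub_self]; exact rfl)
  exact h

/-! ### the potential tested with the indicator of a vertex -/

theorem DF_vertex [DecidableEq V] (E : Finset (Sym2 V)) (φ : V → ℝ) (v : V) (N : Finset V)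
    (hv : v ∉ N) (h1 : ∀ w ∈ N, s(v, w) ∈ E) (h2 : ∀ e ∈ E, v ∈ e → ∃ w ∈ N, e = s(v, w)) :
    DF E φ (fun z => if z = v then 1 else 0) = ∑ w ∈ N, (φ v - φ w) := by
  unfold DF
  classical
  have hinj : Set.InjOn (fun w : V => s(v, w)) (N : Set V) := by
    intro a _ b _ hab
    have : s(v, a) = s(v, b) := hab
    rwa [Sym2.congr_right] at this
  have h3 : ∑ e ∈ N.image (fun w => s(v, w)), dd φ (fun z => if z = v then 1 else 0) e =
      ∑ e ∈ E, dd φ (fun z => if z = v then 1 else 0) e := by
    apply sum_subset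
    · intro e he
      obtain ⟨w, hw, rfl⟩ := mem_image.1 he
      exact h1 w hw
    · intro e he hne
      by_cases hve : v ∈ e
      · obtain ⟨w, hw, rfl⟩ := h2 e he hve
        exact absurd (mem_image.2 ⟨w, hw, rfl⟩) hne
      · induction e with
        | _ a b =>
          rw [Sym2.mem_iff, not_or] at hve
          unfold dd
          rw [Sym2.lift_mk]
          simp only
          rw [if_neg (Ne.symm hve.1), if_neg (Ne.symm hve.2)]
          ring
  rw [← h3, sum_image hinj]
  refine sum_congr rfl fun w hw => ?_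
  unfold dd
  rw [Sym2.lift_mk]
  have hwv : w ≠ v := fun h => hv (h ▸ hw)
  simp only [if_true]
  rw [if_neg hwv]
  ring

/-! ### the probability of an edge -/

theorem glue_rel (r : Setoid V) (x y : V) : (glue r x y) x y := by
  have h : Relation.EqvGen.setoid (fun a b => a = x ∧ b = y) ≤ glue r x y := le_sup_right
  exact h (Relation.EqvGen.rel _ _ ⟨rfl, rfl⟩)

theorem mem_trees_iff {r : Setoid V} {E T : Finset (Sym2 V)} :
    T ∈ trees r E ↔ IsSpan r (E : Set (Sym2 V)) (T : Set (Sym2 V)) := by
  classical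
  unfold trees
  rw [mem_filter, mem_powerset]
  exact ⟨fun h => h.2, fun h => ⟨by exact_mod_cast h.1, h⟩⟩

theorem glue_notMem {r : Setoid V} {E : Finset (Sym2 V)} {x y : V} {T : Finset (Sym2 V)}
    (hT : T ∈ trees (glue r x y) E) : s(x, y) ∉ T := by
  intro h
  have h1 := (mem_trees_iff.1 hT).2.2 x y (by exact_mod_cast h)
  exact h1 (Relation.EqvGen.rel _ _ (Or.inl (glue_rel r x y)))

theorem edge_prob (h1 : S_T1) (h2 : S_T2) (hK : S_KIR) {r : Setoid V} {E : Finset (Sym2 V)}
    {x y : V} (he : s(x, y) ∈ E) (hr : ¬ r x y) {φ : V → ℝ} (hφ : IsPot r E x y φ) :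
    Av r E (fun T => by classical exact if s(x, y) ∈ T then 1 else 0) = φ x - φ y := by
  classical
  have hc : Conn r (E : Set (Sym2 V)) x y :=
    Relation.EqvGen.rel _ _ (Or.inr (by exact_mod_cast he))
  have h3 := hK V r E x y φ hr hc hφ
  have hpos : 0 < ((trees r E).card : ℝ) := by exact_mod_cast card_pos.2 (h1 V r E)
  have h4 : (trees (glue r x y) E).card = ((trees r E).filter (s(x, y) ∈ ·)).card := by
    apply card_bij (fun T _ => insert s(x, y) T)
    · intro T hT
      have hn := glue_notMem hT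
      exact mem_filter.2 ⟨(h2 V r E x y he hr T hn).2 hT, mem_insert_self _ _⟩
    · intro T hT T' hT' h
      have hn := glue_notMem hT
      have hn' := glue_notMem hT'
      rw [← erase_insert hn, h, erase_insert hn']
    · intro T hT
      obtain ⟨hT1, hT2⟩ := mem_filter.1 hT
      refine ⟨T.erase s(x, y), ?_, insert_erase hT2⟩
      rw [← h2 V r E x y he hr _ (notMem_erase _ _), insert_erase hT2]
      exact hT1
  unfold Av
  rw [div_eq_iff hpos.ne', ← h3, h4, card_filter]
  push_cast
  refine sum_congr rfl fun T _ => ?_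
  congr

theorem EDGE (h1 : S_T1) (h2 : S_T2) (hP : S_POT) (hK : S_KIR) : S_EDGE := by
  classical
  intro V G hf hrec e he ε hε
  induction e with
  | _ x y =>
  have hadj : G.Adj x y := he
  have hlim := hit_lim G hf hadj.symm (hrec y)
  obtain ⟨M, hM⟩ := (hlim.eventually_lt_const hε).exists
  refine ⟨(bal_finite G hf x (M + 1)).toFinset ∪ {y}, fun C hC E hE => ?_⟩
  have hball : bal G x (M + 1) ⊆ (C : Set V) := by
    intro z hz
    exact hC (mem_union_left _ ((bal_finite G hf x (M + 1)).mem_toFinset.2 hz))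
  have hxC : x ∈ C := by
    have : x ∈ bal G x (M + 1) := bal_mono G x (Nat.zero_le _) rfl
    exact_mod_cast hball this
  have hyC : y ∈ C := hC (mem_union_right _ (mem_singleton_self y))
  have hins : ∀ e, e ∈ ins G C ↔ (∀ a ∈ e, a ∈ C) ∧ e ∈ G.edgeSet := by
    intro e
    unfold ins
    rw [mem_filter, mem_sym2_iff]
  have hEm : ∀ e, e ∈ E ↔ e ∈ G.edgeSet ∧ ∃ v ∈ C, v ∈ e := by
    intro e
    have : e ∈ (E : Set (Sym2 V)) ↔ e ∈ touch G C := by rw [hE]
    exact this
  have heF : s(x, y) ∈ ins G C := by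
    rw [hins]
    refine ⟨fun a ha => ?_, he⟩
    rcases Sym2.mem_iff.1 ha with rfl | rfl <;> assumption
  have heW : s(x, y) ∈ E := (hEm _).2 ⟨he, x, hxC, Sym2.mem_mk_left x y⟩
  have hrF : ¬ (⊥ : Setoid V) x y := fun h => hadj.ne h
  have hrW : ¬ (wired C) x y := by
    rintro (h | h)
    · exact hadj.ne h
    · exact h.1 hxC
  obtain ⟨φ, hφ, hφy, hφb⟩ := hP V ⊥ (ins G C) x y
    (Relation.EqvGen.rel _ _ (Or.inr (by exact_mod_cast heF)))
  obtain ⟨χ, hχ, hχy, hχb⟩ := hP V (wired C) E x y
    (Relation.EqvGen.rel _ _ (Or.inr (by exact_mod_cast heW)))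
  have hpF := edge_prob h1 h2 hK heF hrF hφ
  have hpW := edge_prob h1 h2 hK heW hrW hχ
  have hle1 : ∀ (r : Setoid V) (E : Finset (Sym2 V)),
      Av r E (fun T => by classical exact if s(x, y) ∈ T then 1 else 0) ≤ 1 := by
    intro r E
    unfold Av
    apply div_le_one_of_le₀ _ (Nat.cast_nonneg _)
    rw [← nsmul_one, ← sum_const]
    apply sum_le_sum
    intro T _
    split_ifs <;> norm_num
  rw [hφy, sub_zero] at hpF
  rw [hχy, sub_zero] at hpW
  have hφ1 : φ x ≤ 1 := hpF ▸ hle1 _ _
  have hχ1 : χ x ≤ 1 := hpW ▸ hle1 _ _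
  rw [hpF, hpW]
  have hmain := harm_bound G hf x y M (fun z => φ z - χ z) (by
    intro z
    rw [abs_le]
    have a1 := hφb z
    have a2 := hχb z
    constructor <;> linarith [a1.1, a1.2, a2.1, a2.2]) (by rw [hφy, hχy, sub_zero]) (by
    intro v hv hne
    have hvC : v ∈ C := by exact_mod_cast hball (bal_mono G x (Nat.le_succ M) hv)
    have hnC : ∀ w ∈ G.neighborSet v, w ∈ C := fun w hw => by
      exact_mod_cast hball (bal_step G x M hv hw)
    have hvN : v ∉ (hf v).toFinset := by
      rw [Set.Finite.mem_toFinset]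
      exact G.loopless.irrefl v
    have d1 := hφ.2 (fun z => if z = v then 1 else 0) (fun a b hab => by
      have : a = b := hab
      rw [this])
    have d2 := hχ.2 (fun z => if z = v then 1 else 0) (fun a b hab => by
      rcases hab with h | h
      · rw [h]
      · have ha : a ≠ v := fun h' => h.1 (h' ▸ hvC)
        have hb : b ≠ v := fun h' => h.2 (h' ▸ hvC)
        simp only
        rw [if_neg ha, if_neg hb])
    have hedge : ∀ e ∈ G.edgeSet, v ∈ e → ∃ w ∈ (hf v).toFinset, e = s(v, w) := by
      intro e he' hve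
      obtain ⟨w, rfl⟩ := Sym2.mem_iff_exists.1 hve
      exact ⟨w, (hf v).mem_toFinset.2 he', rfl⟩
    rw [DF_vertex (ins G C) φ v (hf v).toFinset hvN (fun w hw => by
      rw [hins]
      have hw' := (hf v).mem_toFinset.1 hw
      refine ⟨fun a ha => ?_, hw'⟩
      rcases Sym2.mem_iff.1 ha with rfl | rfl
      · exact hvC
      · exact hnC _ hw') (fun e he' hve => hedge e ((hins e).1 he').2 hve)] at d1
    rw [DF_vertex E χ v (hf v).toFinset hvN (fun w hw => by
      rw [hEm]
      exact ⟨(hf v).mem_toFinset.1 hw, v, hvC, Sym2.mem_mk_left v w⟩)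
      (fun e he' hve => hedge e ((hEm e).1 he').1 hve)] at d2
    have d3 : ∑ w ∈ (hf v).toFinset, ((φ v - χ v) - (φ w - χ w)) = 0 := by
      have : ∑ w ∈ (hf v).toFinset, ((φ v - χ v) - (φ w - χ w)) =
          ∑ w ∈ (hf v).toFinset, (φ v - φ w) - ∑ w ∈ (hf v).toFinset, (χ v - χ w) := by
        rw [← sum_sub_distrib]
        exact sum_congr rfl fun w _ => by ring
      rw [this, d1, d2, sub_self]
    rw [sum_sub_distrib, sum_const, nsmul_eq_mul, sub_eq_zero] at d3
    have hcard : ((hf v).toFinset.card : ℝ) ≠ 0 := by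
      rw [Nat.cast_ne_zero, card_ne_zero]
      exact (Set.Finite.toFinset_nonempty (hf v)).2 hne
    rw [nbrAvg_eq G (hf v), ← d3]
    field_simp)
  have h5 := (abs_le.1 hmain).2
  linarith

end Run7.h304.WU
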