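import Pool.Agent.Run7.h381.WU.Stm

/-!
Feder-Mihail: in a homogeneous family of finite sets with hereditary negative correlation, an
increasing function of the other elements is negatively correlated with every element.
-/

set_option autoImplicit false

namespace Run7.h304.WU

open Finset
open Run7.h381.WU (cnt HNC S_FM)

variable {α : Type} [DecidableEq α]

theorem hnc_in {B : Finset (Finset α)} (h : HNC B) (f : α) : HNC (B.filter (f ∈ ·)) := by
  have e : ∀ J O : Finset α, cnt (B.filter (f ∈ ·)) J O = cnt B (insert f J) O := by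
    intro J O
    unfold cnt
    rw [filter_filter]
    congr 1
    apply filter_congr
    intro T _
    rw [insert_subset_iff]
    tauto
  intro J O a b hab
  rw [e, e, e, e, insert_comm f a (insert b J), insert_comm f b J, insert_comm f a J]
  exact h (insert f J) O a b hab

theorem hnc_out {B : Finset (Finset α)} (h : HNC B) (f : α) : HNC (B.filter (f ∉ ·)) := by
  have e : ∀ J O : Finset α, cnt (B.filter (f ∉ ·)) J O = cnt B J (insert f O) := by
    intro J O
    unfold cnt
    rw [filter_filter]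
    congr 1
    apply filter_congr
    intro T _
    rw [disjoint_insert_left]
    tauto
  intro J O a b hab
  rw [e, e, e, e]
  exact h J (insert f O) a b hab

/-- the elements which belong to some but not to all members of the family -/
def nc (B : Finset (Finset α)) : Finset α := (B.sup id).filter (fun f => ∃ T ∈ B, f ∉ T)

theorem mem_nc {B : Finset (Finset α)} {f : α} :
    f ∈ nc B ↔ (∃ T ∈ B, f ∈ T) ∧ ∃ T ∈ B, f ∉ T := by
  unfold nc
  rw [mem_filter, mem_sup]
  simp

theorem nc_in {B : Finset (Finset α)} {f : α} (hf : f ∈ nc B) :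
    (nc (B.filter (f ∈ ·))).card < (nc B).card := by
  apply card_lt_card
  rw [ssubset_iff_of_subset]
  · refine ⟨f, hf, fun h => ?_⟩
    obtain ⟨-, T, hT, hfT⟩ := mem_nc.1 h
    exact hfT (mem_filter.1 hT).2
  · intro a ha
    obtain ⟨⟨T, hT, h1⟩, T', hT', h2⟩ := mem_nc.1 ha
    exact mem_nc.2 ⟨⟨T, (mem_filter.1 hT).1, h1⟩, T', (mem_filter.1 hT').1, h2⟩

theorem nc_out {B : Finset (Finset α)} {f : α} (hf : f ∈ nc B) :
    (nc (B.filter (f ∉ ·))).card < (nc B).card := by
  apply card_lt_card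
  rw [ssubset_iff_of_subset]
  · refine ⟨f, hf, fun h => ?_⟩
    obtain ⟨⟨T, hT, hfT⟩, -⟩ := mem_nc.1 h
    exact (mem_filter.1 hT).2 hfT
  · intro a ha
    obtain ⟨⟨T, hT, h1⟩, T', hT', h2⟩ := mem_nc.1 ha
    exact mem_nc.2 ⟨⟨T, (mem_filter.1 hT).1, h1⟩, T', (mem_filter.1 hT').1, h2⟩

/-- the arithmetic of the induction step -/
theorem arith {n11 n10 n01 n00 s11 s10 s01 s00 : ℝ} (h11 : 0 < n11) (h10 : 0 < n10) (hcov : n11 * s10 ≤ n10 * s11)
    (hf : s11 * (n11 + n01) ≤ n11 * (s11 + s01)) (hf' : s10 * (n10 + n00) ≤ n10 * (s10 + s00))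
    (hneg : n11 * (n11 + n10 + (n01 + n00)) ≤ (n11 + n10) * (n11 + n01)) :
    (s11 + s10) * (n11 + n10 + (n01 + n00)) ≤
      (n11 + n10) * (s11 + s10 + (s01 + s00)) := by
  obtain ⟨a, rfl⟩ : ∃ a, s11 = a * n11 := ⟨s11 / n11, by field_simp⟩
  obtain ⟨b, rfl⟩ : ∃ b, s10 = b * n10 := ⟨s10 / n10, by field_simp⟩
  have hab : b ≤ a := by
    have h1 : n11 * n10 * b ≤ n11 * n10 * a := by linarith
    exact le_of_mul_le_mul_left h1 (mul_pos h11 h10)
  have hA : a * (n11 + n01) ≤ a * n11 + s01 := by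
    have h1 : n11 * (a * (n11 + n01)) ≤ n11 * (a * n11 + s01) := by linarith
    exact le_of_mul_le_mul_left h1 h11
  have hB : b * (n10 + n00) ≤ b * n10 + s00 := by
    have h1 : n10 * (b * (n10 + n00)) ≤ n10 * (b * n10 + s00) := by linarith
    exact le_of_mul_le_mul_left h1 h10
  have h1 : 0 ≤ (a - b) * ((n11 + n10) * (n11 + n01) - n11 * (n11 + n10 + (n01 + n00))) :=
    mul_nonneg (by linarith) (by linarith)
  have h2 : 0 ≤ (n11 + n10) * (a * n11 + s01 - a * (n11 + n01)) :=
    mul_nonneg (by linarith) (by linarith)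
  have h3 : 0 ≤ (n11 + n10) * (b * n10 + s00 - b * (n10 + n00)) :=
    mul_nonneg (by linarith) (by linarith)
  nlinarith [h1, h2, h3]

theorem split (C : Finset (Finset α)) (x : α) (F : Finset α → ℝ) :
    ∑ T ∈ C, F T = ∑ T ∈ C.filter (x ∈ ·), F T + ∑ T ∈ C.filter (x ∉ ·), F T :=
  (sum_filter_add_sum_filter_not C (x ∈ ·) F).symm

omit [DecidableEq α] in
theorem card_sum (C : Finset (Finset α)) : (C.card : ℝ) = ∑ _T ∈ C, (1 : ℝ) := by simp

/-- the members of a homogeneous family have the same number of non-constant elements -/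
theorem inter_card {B : Finset (Finset α)} {n : ℕ} (hcard : ∀ T ∈ B, T.card = n)
    {T T' : Finset α} (hT : T ∈ B) (hT' : T' ∈ B) : (T ∩ nc B).card = (T' ∩ nc B).card := by
  have h1 : T \ nc B = T' \ nc B := by
    have key : ∀ T ∈ B, ∀ T' ∈ B, T \ nc B ⊆ T' \ nc B := by
      intro T hT T' hT' f hf
      rw [mem_sdiff] at hf ⊢
      refine ⟨?_, hf.2⟩
      by_contra hcon
      exact hf.2 (mem_nc.2 ⟨⟨T, hT, hf.1⟩, T', hT', hcon⟩)
    exact Subset.antisymm (key T hT T' hT') (key T' hT' T hT)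
  have h2 := card_sdiff_add_card_inter T (nc B)
  have h3 := card_sdiff_add_card_inter T' (nc B)
  rw [hcard T hT] at h2
  rw [hcard T' hT', ← h1] at h3
  omega

/-- there is a non-constant element which is not negatively correlated with the given function -/
theorem exists_pos {B : Finset (Finset α)} {n : ℕ} (hcard : ∀ T ∈ B, T.card = n)
    (hne : (nc B).Nonempty) (h : Finset α → ℝ) :
    ∃ f ∈ nc B, ((B.filter (f ∈ ·)).card : ℝ) * ∑ T ∈ B, h T ≤
      (B.card : ℝ) * ∑ T ∈ B.filter (f ∈ ·), h T := by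
  by_contra hcon
  push Not at hcon
  have h1 : ∑ f ∈ nc B, ((B.card : ℝ) * ∑ T ∈ B.filter (f ∈ ·), h T -
      ((B.filter (f ∈ ·)).card : ℝ) * ∑ T ∈ B, h T) < 0 :=
    sum_neg (fun f hf => by linarith [hcon f hf]) hne
  obtain ⟨f0, hf0⟩ := hne
  obtain ⟨⟨T0, hT0, -⟩, -⟩ := mem_nc.1 hf0
  have h2 : ∀ F : Finset α → ℝ, ∑ f ∈ nc B, ∑ T ∈ B.filter (f ∈ ·), F T =
      ((T0 ∩ nc B).card : ℝ) * ∑ T ∈ B, F T := by
    intro F
    simp only [sum_filter]
    rw [sum_comm, mul_sum]
    refine sum_congr rfl fun T hT => ?_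
    rw [← sum_filter, sum_const, nsmul_eq_mul, inter_card hcard hT0 hT]
    congr 2
    congr 1
    ext f
    simp [and_comm]
  have h3 : ∑ f ∈ nc B, ((B.filter (f ∈ ·)).card : ℝ) = ((T0 ∩ nc B).card : ℝ) * B.card := by
    simp only [card_sum]
    exact h2 fun _ => 1
  rw [sum_sub_distrib, ← mul_sum, ← sum_mul, h2, h3] at h1
  linarith

theorem FM : S_FM := by
  intro α _ B n
  induction hm : (nc B).card using Nat.strong_induction_on generalizing B with
  | _ m ih =>
    intro hcard hB e g hg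
    set h : Finset α → ℝ := fun T => g (T.erase e) with hh
    have hcardE : ∀ T ∈ B.filter (e ∈ ·), T.card = n := fun T hT => hcard T (mem_filter.1 hT).1
    have hneg : ∀ f, f ≠ e → ((B.filter (f ∈ ·)).filter (e ∈ ·)).card * B.card ≤
        (B.filter (e ∈ ·)).card * (B.filter (f ∈ ·)).card := by
      intro f hf
      have h1 := hB ∅ ∅ e f (Ne.symm hf)
      have e1 : cnt B (insert e (insert f ∅)) ∅ = ((B.filter (f ∈ ·)).filter (e ∈ ·)).card := by
        unfold cnt
        rw [filter_filter]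
        congr 1
        apply filter_congr
        intro T _
        simp [insert_subset_iff, and_comm]
      have e2 : cnt B ∅ ∅ = B.card := by
        unfold cnt
        congr 1
        apply filter_true_of_mem
        intro T _
        simp
      have e3 : ∀ x, cnt B (insert x ∅) ∅ = (B.filter (x ∈ ·)).card := by
        intro x
        unfold cnt
        congr 1
        apply filter_congr
        intro T _
        simp
      rw [e1, e2, e3, e3] at h1
      exact h1
    by_cases hne : (nc (B.filter (e ∈ ·))).Nonempty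
    · obtain ⟨f, hf, hcov⟩ := exists_pos hcardE hne h
      obtain ⟨⟨T1, hT1, hfT1⟩, T2, hT2, hfT2⟩ := mem_nc.1 hf
      have hfe : f ≠ e := by
        rintro rfl
        exact hfT2 (mem_filter.1 hT2).2
      have hfB : f ∈ nc B := mem_nc.2 ⟨⟨T1, (mem_filter.1 hT1).1, hfT1⟩, T2,
        (mem_filter.1 hT2).1, hfT2⟩
      have ih1 := ih _ (hm ▸ nc_in hfB) (B.filter (f ∈ ·)) rfl
        (fun T hT => hcard T (mem_filter.1 hT).1) (hnc_in hB f) e g hg
      have ih2 := ih _ (hm ▸ nc_out hfB) (B.filter (f ∉ ·)) rfl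
        (fun T hT => hcard T (mem_filter.1 hT).1) (hnc_out hB f) e g hg
      have h11 : 0 < (((B.filter (f ∈ ·)).filter (e ∈ ·)).card : ℝ) := by
        have : T1 ∈ (B.filter (f ∈ ·)).filter (e ∈ ·) :=
          mem_filter.2 ⟨mem_filter.2 ⟨(mem_filter.1 hT1).1, hfT1⟩, (mem_filter.1 hT1).2⟩
        exact_mod_cast card_pos.2 ⟨_, this⟩
      have h10 : 0 < (((B.filter (f ∉ ·)).filter (e ∈ ·)).card : ℝ) := by
        have : T2 ∈ (B.filter (f ∉ ·)).filter (e ∈ ·) :=
          mem_filter.2 ⟨mem_filter.2 ⟨(mem_filter.1 hT2).1, hfT2⟩, (mem_filter.1 hT2).2⟩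
        exact_mod_cast card_pos.2 ⟨_, this⟩
      have hn := hneg f hfe
      have hn' : (((B.filter (f ∈ ·)).filter (e ∈ ·)).card : ℝ) * B.card ≤
        (B.filter (e ∈ ·)).card * (B.filter (f ∈ ·)).card := by exact_mod_cast hn
      have c1 : (B.filter (e ∈ ·)).filter (f ∈ ·) = (B.filter (f ∈ ·)).filter (e ∈ ·) :=
        filter_comm _ _ _
      have c2 : (B.filter (e ∈ ·)).filter (f ∉ ·) = (B.filter (f ∉ ·)).filter (e ∈ ·) :=
        filter_comm _ _ _
      -- all sums in terms of the four parts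
      have sE : ∀ F : Finset α → ℝ, ∑ T ∈ B.filter (e ∈ ·), F T =
          ∑ T ∈ (B.filter (f ∈ ·)).filter (e ∈ ·), F T +
            ∑ T ∈ (B.filter (f ∉ ·)).filter (e ∈ ·), F T := by
        intro F
        rw [split (B.filter (e ∈ ·)) f F, c1, c2]
      have sf : ∀ F : Finset α → ℝ, ∑ T ∈ B.filter (f ∈ ·), F T =
          ∑ T ∈ (B.filter (f ∈ ·)).filter (e ∈ ·), F T +
            ∑ T ∈ (B.filter (f ∈ ·)).filter (e ∉ ·), F T := fun F => split _ e F
      have sf' : ∀ F : Finset α → ℝ, ∑ T ∈ B.filter (f ∉ ·), F T =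
          ∑ T ∈ (B.filter (f ∉ ·)).filter (e ∈ ·), F T +
            ∑ T ∈ (B.filter (f ∉ ·)).filter (e ∉ ·), F T := fun F => split _ e F
      have sB : ∀ F : Finset α → ℝ, ∑ T ∈ B, F T =
          (∑ T ∈ (B.filter (f ∈ ·)).filter (e ∈ ·), F T +
            ∑ T ∈ (B.filter (f ∉ ·)).filter (e ∈ ·), F T) +
          (∑ T ∈ (B.filter (f ∈ ·)).filter (e ∉ ·), F T +
            ∑ T ∈ (B.filter (f ∉ ·)).filter (e ∉ ·), F T) := by
        intro F
        rw [split B f F, sf F, sf' F]
        ring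
      have nE := sE fun _ => 1
      have nf := sf fun _ => 1
      have nf' := sf' fun _ => 1
      have nB := sB fun _ => 1
      simp only [← card_sum] at nE nf nf' nB
      change (∑ T ∈ B.filter (e ∈ ·), h T) * (B.card : ℝ) ≤
        ((B.filter (e ∈ ·)).card : ℝ) * ∑ T ∈ B, h T
      change (∑ T ∈ (B.filter (f ∈ ·)).filter (e ∈ ·), h T) * ((B.filter (f ∈ ·)).card : ℝ) ≤
        (((B.filter (f ∈ ·)).filter (e ∈ ·)).card : ℝ) * ∑ T ∈ B.filter (f ∈ ·), h T at ih1
      change (∑ T ∈ (B.filter (f ∉ ·)).filter (e ∈ ·), h T) * ((B.filter (f ∉ ·)).card : ℝ) ≤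
        (((B.filter (f ∉ ·)).filter (e ∈ ·)).card : ℝ) * ∑ T ∈ B.filter (f ∉ ·), h T at ih2
      rw [c1, sE h, nE] at hcov
      rw [nf, sf h] at ih1
      rw [nf', sf' h] at ih2
      rw [nE, nB, nf] at hn'
      rw [nE, nB, sE h, sB h]
      refine arith h11 h10 ?_ ih1 ih2 hn'
      linarith
    · -- all members of `B.filter (e ∈ ·)` are equal
      rcases (B.filter (e ∈ ·)).eq_empty_or_nonempty with h0 | ⟨T0, hT0⟩
      · rw [h0]; simp
      have hall : ∀ T ∈ B.filter (e ∈ ·), T = T0 := by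
        intro T hT
        ext f
        constructor
        · intro hf
          by_contra hcon
          exact hne ⟨f, mem_nc.2 ⟨⟨T, hT, hf⟩, T0, hT0, hcon⟩⟩
        · intro hf
          by_contra hcon
          exact hne ⟨f, mem_nc.2 ⟨⟨T0, hT0, hf⟩, T, hT, hcon⟩⟩
      have hsing : B.filter (e ∈ ·) = {T0} := by
        rw [eq_singleton_iff_unique_mem]
        exact ⟨hT0, hall⟩
      have hsub : ∀ T ∈ B, T0.erase e ⊆ T.erase e := by
        intro T hT f hf
        rw [mem_erase] at hf ⊢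
        refine ⟨hf.1, ?_⟩
        have h1 := hneg f hf.1
        have h2 : (B.filter (f ∈ ·)).filter (e ∈ ·) = {T0} := by
          rw [filter_comm, hsing]
          exact filter_true_of_mem fun x hx => by rw [mem_singleton.1 hx]; exact hf.2
        rw [h2, hsing, card_singleton, one_mul, one_mul] at h1
        have h3 : B.filter (f ∈ ·) = B := eq_of_subset_of_card_le (filter_subset _ _) h1
        rw [← h3] at hT
        exact (mem_filter.1 hT).2
      rw [hsing, sum_singleton, card_singleton, Nat.cast_one, one_mul, mul_comm, ← nsmul_eq_mul]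
      exact card_nsmul_le_sum _ _ _ fun T hT => hg (hsub T hT)

end Run7.h304.WU
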